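import Pool.Agent.Helper909.SubRank.Dom

set_option autoImplicit false

namespace Pool.Agent.Results.MP_c64be1_ag.SmallCodim

open MvPolynomial Pool.Agent.Helper909.SubRank

/-- Generic `Sub_r(S^k V)`-rank for `dim V = n`, `r = n - c`, in the range `2 ≤ c ≤ n / (k+1)`. -/
theorem result (n k c : ℕ) (hk : 3 ≤ k) (hc : 2 ≤ c) (hn : (k + 1) * c ≤ n) :
    (k ≤ genericRank n k (n - c) ∧ genericRank n k (n - c) ≤ k + 1) ∧
    (k * c + c ^ (k - 2) * ((c + k - 1) / k) ≤ n → genericRank n k (n - c) = k) ∧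
    (k * (n - c) < c ^ (k - 1) → genericRank n k (n - c) = k + 1) ∧
    (∀ f : MvPolynomial (Fin n) ℂ, f.IsHomogeneous k → f ∈ Sums n k (n - c) (k + 1)) ∧
    (k * c + c ^ (k - 1) ≤ n →
      ∀ f : MvPolynomial (Fin n) ℂ, f.IsHomogeneous k → f ∈ Sums n k (n - c) k) := by
  have hc0 : 0 < c := by omega
  obtain ⟨s, rfl⟩ : ∃ s, k = s + 1 := ⟨k - 1, by omega⟩
  have hkc : (s + 1) * c ≤ n := le_trans (Nat.mul_le_mul_right _ (by omega)) hn
  have hsc : s * c ≤ n := le_trans (Nat.mul_le_mul_right _ (by omega)) hn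
  have hall : ∀ f : MvPolynomial (Fin n) ℂ, f.IsHomogeneous (s + 1) →
      f ∈ Sums n (s + 1) (n - c) (s + 1 + 1) := fun f hf => all_succ hc0 hn f hf
  have hfill : Fills n (s + 1) (n - c) (s + 1 + 1) := fills_of_all hall
  have hlow : ¬ Fills n (s + 1) (n - c) s := by
    apply not_fills n (s + 1) c s hc0 hsc
    exact lt_of_lt_of_le (ineq3 n c s hc (by omega) (by
      have : (s + 2) * c = (s + 1 + 1) * c := by ring
      omega)) (count2 n c s hc0 (by omega) hsc)
  refine ⟨⟨?_, ?_⟩, ?_, ?_, hall, ?_⟩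
  · unfold genericRank
    apply le_csInf ⟨_, hfill⟩
    intro t ht
    by_contra hlt
    exact hlow (fills_mono n (s + 1) (n - c) (by omega) ht)
  · exact Nat.sInf_le hfill
  · intro h
    exact rank_eq (fills_dom hk hc0 h) hlow
  · intro h
    apply rank_eq hfill
    apply not_fills n (s + 1) c (s + 1) hc0 hkc
    refine lt_of_lt_of_le ?_ (count1 n c (s + 1) hc0 hkc)
    have h1 : (s + 1) * c * (n - c) = ((s + 1) * (n - c)) * c := by ring
    have h2 : c ^ (s + 1) = c ^ (s + 1 - 1) * c := by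
      rw [Nat.add_sub_cancel, pow_succ]
    rw [h1, h2]
    exact Nat.mul_lt_mul_of_pos_right h hc0
  · intro h f hf
    apply all_k hc0 _ f hf
    have : s + 1 - 1 = s := by omega
    rw [this] at h
    omega

end Pool.Agent.Results.MP_c64be1_ag.SmallCodim
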